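import Mathlib

namespace Pool.Agent.H.MP_cb32b9_nt.A

variable {K : Type*} [Field K]

def H (u w : K) : ℕ → K
  | 0 => 0
  | 1 => 0
  | t + 2 => u * H u w (t + 1) - w * H u w t + 1

theorem key (g G : K) : ∀ t, (g ^ t - 1) * (G - 1) - (G ^ t - 1) * (g - 1) =
    (g - 1) * (G - 1) * (g - G) * H (g + G) (g * G) t
  | 0 => by simp [H]
  | 1 => by simp [H, mul_comm]
  | t + 2 => by
    rw [H]
    linear_combination (g + G) * key g G (t + 1) - g * G * key g G t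

theorem no (u w : K) (e4 : H u w 4 = 0) (e10 : H u w 10 = 0) (e23 : H u w 23 = 0)
    (e25 : H u w 25 = 0) : False := by
  have hw : w = 1 + u + u ^ 2 := by
    simp only [H] at e4
    linear_combination -e4
  have h0 : H u w 0 = 0 := rfl
  have h1 : H u w 1 = 0 := rfl
  have h2 : H u w 2 = 1 := by
    rw [H, h1, h0, hw]
    ring
  have h3 : H u w 3 = 1 + 1 * u := by
    rw [H, h2, h1, hw]
    ring
  have h4 := e4
  have h5 : H u w 5 = -2 * u - 2 * u ^ 2 - 1 * u ^ 3 := by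
    rw [H, h4, h3, hw]
    ring
  have h6 : H u w 6 = 1 - 2 * u ^ 2 - 2 * u ^ 3 - 1 * u ^ 4 := by
    rw [H, h5, h4, hw]
    ring
  have h7 : H u w 7 = 1 + 3 * u + 4 * u ^ 2 + 3 * u ^ 3 + 1 * u ^ 4 := by
    rw [H, h6, h5, hw]
    ring
  have h8 : H u w 8 = 4 * u ^ 2 + 8 * u ^ 3 + 8 * u ^ 4 + 4 * u ^ 5 + 1 * u ^ 6 := by
    rw [H, h7, h6, hw]
    ring
  have h9 : H u w 9 = -4 * u - 8 * u ^ 2 - 6 * u ^ 3 + 4 * u ^ 5 + 3 * u ^ 6 + 1 * u ^ 7 := by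
    rw [H, h8, h7, hw]
    ring
  have h10 : H u w 10 = 1 - 8 * u ^ 2 - 20 * u ^ 3 - 26 * u ^ 4 - 20 * u ^ 5 - 9 * u ^ 6 - 2 * u ^ 7 := by
    rw [H, h9, h8, hw]
    ring
  have h11 : H u w 11 = 1 + 5 * u + 12 * u ^ 2 + 10 * u ^ 3 - 6 * u ^ 4 - 24 * u ^ 5 - 27 * u ^ 6 - 17 * u ^ 7 - 6 *
      u ^ 8 - 1 * u ^ 9 := by
    rw [H, h10, h9, hw]
    ring
  have h12 : H u w 12 = 12 * u ^ 2 + 40 * u ^ 3 + 64 * u ^ 4 + 60 * u ^ 5 + 31 * u ^ 6 + 4 * u ^ 7 - 6 * u ^ 8 - 4 *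
      u ^ 9 - 1 * u ^ 10 := by
    rw [H, h11, h10, hw]
    ring
  have h13 : H u w 13 = -6 * u - 18 * u ^ 2 - 15 * u ^ 3 + 24 * u ^ 4 + 84 * u ^ 5 + 117 * u ^ 6 + 99 * u ^ 7 + 54 *
      u ^ 8 + 18 * u ^ 9 + 3 * u ^ 10 := by
    rw [H, h12, h11, hw]
    ring
  have h14 : H u w 14 = 1 - 18 * u ^ 2 - 70 * u ^ 3 - 131 * u ^ 4 - 140 * u ^ 5 - 71 * u ^ 6 + 22 * u ^ 7 + 70 * u ^
      8 + 60 * u ^ 9 + 29 * u ^ 10 + 8 * u ^ 11 + 1 * u ^ 12 := by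
    rw [H, h13, h12, hw]
    ring
  have h15 : H u w 15 = 1 + 7 * u + 24 * u ^ 2 + 21 * u ^ 3 - 61 * u ^ 4 - 224 * u ^ 5 - 365 * u ^ 6 - 371 * u ^ 7 -
      248 * u ^ 8 - 101 * u ^ 9 - 15 * u ^ 10 + 8 * u ^ 11 + 5 * u ^ 12 + 1 * u ^ 13 := by
    rw [H, h14, h13, hw]
    ring
  have h16 : H u w 16 = 24 * u ^ 2 + 112 * u ^ 3 + 240 * u ^ 4 + 280 * u ^ 5 + 118 * u ^ 6 - 176 * u ^ 7 - 392 * u ^
      8 - 400 * u ^ 9 - 260 * u ^ 10 - 112 * u ^ 11 - 30 * u ^ 12 - 4 * u ^ 13 := by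
    rw [H, h15, h14, hw]
    ring
  have h17 : H u w 17 = -8 * u - 32 * u ^ 2 - 28 * u ^ 3 + 128 * u ^ 4 + 504 * u ^ 5 + 930 * u ^ 6 + 1078 * u ^ 7 +
      808 * u ^ 8 + 328 * u ^ 9 - 36 * u ^ 10 - 152 * u ^ 11 - 110 * u ^ 12 - 44 * u ^ 13 - 10 * u
      ^ 14 - 1 * u ^ 15 := by
    rw [H, h16, h15, hw]
    ring
  have h18 : H u w 18 = 1 - 32 * u ^ 2 - 168 * u ^ 3 - 404 * u ^ 4 - 504 * u ^ 5 - 134 * u ^ 6 + 708 * u ^ 7 + 1528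
      * u ^ 8 + 1776 * u ^ 9 + 1380 * u ^ 10 + 736 * u ^ 11 + 250 * u ^ 12 + 36 * u ^ 13 - 10 * u
      ^ 14 - 6 * u ^ 15 - 1 * u ^ 16 := by
    rw [H, h17, h16, hw]
    ring
  have h19 : H u w 19 = 1 + 9 * u + 40 * u ^ 2 + 36 * u ^ 3 - 236 * u ^ 4 - 1008 * u ^ 5 - 2066 * u ^ 6 - 2646 * u ^
      7 - 2108 * u ^ 8 - 686 * u ^ 9 + 676 * u ^ 10 + 1240 * u ^ 11 + 1034 * u ^ 12 + 556 * u ^ 13
      + 200 * u ^ 14 + 45 * u ^ 15 + 5 * u ^ 16 := by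
    rw [H, h18, h17, hw]
    ring
  have h20 : H u w 20 = 40 * u ^ 2 + 240 * u ^ 3 + 640 * u ^ 4 + 840 * u ^ 5 + 34 * u ^ 6 - 2136 * u ^ 7 - 4748 * u
      ^ 8 - 6120 * u ^ 9 - 5370 * u ^ 10 - 3216 * u ^ 11 - 1126 * u ^ 12 + 12 * u ^ 13 + 280 * u ^
      14 + 180 * u ^ 15 + 62 * u ^ 16 + 12 * u ^ 17 + 1 * u ^ 18 := by
    rw [H, h19, h18, hw]
    ring
  have h21 : H u w 21 = -10 * u - 50 * u ^ 2 - 45 * u ^ 3 + 400 * u ^ 4 + 1848 * u ^ 5 + 4150 * u ^ 6 + 5754 * u ^ 7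
      + 4684 * u ^ 8 + 692 * u ^ 9 - 4002 * u ^ 10 - 6600 * u ^ 11 - 6166 * u ^ 12 - 3956 * u ^ 13
      - 1778 * u ^ 14 - 521 * u ^ 15 - 70 * u ^ 16 + 12 * u ^ 17 + 7 * u ^ 18 + 1 * u ^ 19 := by
    rw [H, h20, h19, hw]
    ring
  have h22 : H u w 22 = 1 - 50 * u ^ 2 - 330 * u ^ 3 - 965 * u ^ 4 - 1320 * u ^ 5 + 334 * u ^ 6 + 5412 * u ^ 7 +
      12604 * u ^ 8 + 17688 * u ^ 9 + 16930 * u ^ 10 + 10704 * u ^ 11 + 3112 * u ^ 12 - 1836 * u ^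
      13 - 3122 * u ^ 14 - 2250 * u ^ 15 - 1043 * u ^ 16 - 324 * u ^ 17 - 63 * u ^ 18 - 6 * u ^ 19 := by
    rw [H, h21, h20, hw]
    ring
  have h23 : H u w 23 = 1 + 11 * u + 60 * u ^ 2 + 55 * u ^ 3 - 635 * u ^ 4 - 3168 * u ^ 5 - 7718 * u ^ 6 - 11418 * u
      ^ 7 - 9176 * u ^ 8 + 1474 * u ^ 9 + 16314 * u ^ 10 + 26840 * u ^ 11 + 27472 * u ^ 12 + 19834
      * u ^ 13 + 10064 * u ^ 14 + 3133 * u ^ 15 + 119 * u ^ 16 - 464 * u ^ 17 - 273 * u ^ 18 - 83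
      * u ^ 19 - 14 * u ^ 20 - 1 * u ^ 21 := by
    rw [H, h22, h21, hw]
    ring
  have h24 : H u w 24 = 60 * u ^ 2 + 440 * u ^ 3 + 1400 * u ^ 4 + 1980 * u ^ 5 - 1217 * u ^ 6 - 12144 * u ^ 7 -
      29768 * u ^ 8 - 44880 * u ^ 9 - 45748 * u ^ 10 - 29008 * u ^ 11 - 3906 * u ^ 12 + 15492 * u
      ^ 13 + 21680 * u ^ 14 + 17272 * u ^ 15 + 9548 * u ^ 16 + 3736 * u ^ 17 + 966 * u ^ 18 + 120
      * u ^ 19 - 14 * u ^ 20 - 8 * u ^ 21 - 1 * u ^ 22 := by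
    rw [H, h23, h22, hw]
    ring
  have h25 : H u w 25 = -12 * u - 72 * u ^ 2 - 66 * u ^ 3 + 960 * u ^ 4 + 5148 * u ^ 5 + 13501 * u ^ 6 + 21087 * u ^
      7 + 16168 * u ^ 8 - 10648 * u ^ 9 - 53492 * u ^ 10 - 90376 * u ^ 11 - 99634 * u ^ 12 - 78052
      * u ^ 13 - 41878 * u ^ 14 - 11351 * u ^ 15 + 3956 * u ^ 16 + 6760 * u ^ 17 + 4354 * u ^ 18 +
      1786 * u ^ 19 + 490 * u ^ 20 + 84 * u ^ 21 + 7 * u ^ 22 := by
    rw [H, h24, h23, hw]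
    ring
  rw [h10] at e10
  rw [h23] at e23
  rw [h25] at e25
  have a : (13 : K) = 0 := by
    linear_combination (51 + 456 * u + 2846 * u ^ 2 + 5605 * u ^ 3 - 11317 * u ^ 4 - 85316 * u ^ 5 - 213442 * u ^ 6
      - 291693 * u ^ 7 - 174350 * u ^ 8 + 153009 * u ^ 9 + 503787 * u ^ 10 + 648904 * u ^ 11 +
      532332 * u ^ 12 + 291423 * u ^ 13 + 93762 * u ^ 14 + 2587 * u ^ 15 - 14505 * u ^ 16 - 7870 *
      u ^ 17 - 2095 * u ^ 18 - 278 * u ^ 19 - 14 * u ^ 20) * e10 +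
      (-38 - 38 * u + 260 * u ^ 2 + 573 * u ^ 3 + 588 * u ^ 4 + 290 * u ^ 5 + 28 * u ^ 6) * e23
  have b : (78811471451 : K) = 0 := by
    linear_combination (78811471451 - 808504058701 * u - 3980615397985 * u ^ 2 - 465399357108 * u ^ 3 +
      58545275977130 * u ^ 4 + 243780733530346 * u ^ 5 + 513683477702222 * u ^ 6 + 585915341195242
      * u ^ 7 + 92469400602163 * u ^ 8 - 989129511484934 * u ^ 9 - 2121063412995864 * u ^ 10 -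
      2589825401469196 * u ^ 11 - 2144744464141596 * u ^ 12 - 1182100699643204 * u ^ 13 -
      317847432469446 * u ^ 14 + 119847664181658 * u ^ 15 + 192894643837407 * u ^ 16 +
      118382925679836 * u ^ 17 + 45347865114944 * u ^ 18 + 11267611194504 * u ^ 19 + 1670645030796
      * u ^ 20 + 110623491328 * u ^ 21) * e23 +
      (4868510605 - 708000376683 * u - 3147756325496 * u ^ 2 - 156983162709 * u ^ 3 +
      39090311071511 * u ^ 4 + 146509340098098 * u ^ 5 + 282459473581923 * u ^ 6 + 304869979019339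
      * u ^ 7 + 86577716248475 * u ^ 8 - 313596150497559 * u ^ 9 - 654774763701193 * u ^ 10 -
      728967743313668 * u ^ 11 - 543742591758363 * u ^ 12 - 274276307719777 * u ^ 13 -
      79517702704384 * u ^ 14 + 1820820748649 * u ^ 15 + 14252790031064 * u ^ 16 + 7228060531796 *
      u ^ 17 + 1913148978784 * u ^ 18 + 270270287636 * u ^ 19 + 15803355904 * u ^ 20) * e25
  exact one_ne_zero (α := K) (by linear_combination 42436946166 * a - 7 * b)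

end Pool.Agent.H.MP_cb32b9_nt.A
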